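import Pool.Agent.K3h22.EX.Stm7
import Pool.Agent.H450R2.Sp.Null

/-!
# Almost all families of complex numbers have algebraically independent real and imaginary parts
-/

set_option autoImplicit false

namespace Pool.Agent.K3h90.ET

open MvPolynomial MeasureTheory

/-- real and imaginary parts -/
noncomputable def ri (n s : ℕ) :
    (Fin n → Fin s → ℂ) ≃ₗ[ℝ] ((Fin n × Fin s) ⊕ (Fin n × Fin s) → ℝ) where
  toFun A := Sum.elim (fun p => (A p.1 p.2).re) (fun p => (A p.1 p.2).im)
  map_add' A B := by
    funext q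
    rcases q with q | q <;> simp
  map_smul' c A := by
    funext q
    rcases q with q | q <;> simp
  invFun y := fun i j => ⟨y (Sum.inl (i, j)), y (Sum.inr (i, j))⟩
  left_inv A := by
    funext i j
    rfl
  right_inv y := by
    funext q
    rcases q with q | q <;> rfl

theorem haar (n s : ℕ) : (volume : Measure (Fin n → Fin s → ℂ)).IsAddHaarMeasure := by
  have h1 : ∀ _ : Fin n, (volume : Measure (Fin s → ℂ)).IsAddHaarMeasure := fun _ => inferInstance
  have h2 : ∀ _ : Fin n, SigmaFinite (volume : Measure (Fin s → ℂ)) := fun _ => inferInstance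
  have h3 : ∀ _ : Fin n, MeasurableAdd (Fin s → ℂ) := fun _ => inferInstance
  exact Measure.pi.isAddHaarMeasure (fun _ : Fin n => (volume : Measure (Fin s → ℂ)))

theorem cnt (σ : Type) [Fintype σ] : Countable (MvPolynomial σ ℚ) := by
  rw [← Cardinal.mk_le_aleph0_iff]
  refine MvPolynomial.cardinalMk_le_max.trans ?_
  simp

theorem t_AEA : Pool.Agent.K3h22.EX.S_AEA := by
  intro n s
  have hcnt : Countable (MvPolynomial ((Fin n × Fin s) ⊕ (Fin n × Fin s)) ℚ) := cnt _
  have key : ∀ q : MvPolynomial ((Fin n × Fin s) ⊕ (Fin n × Fin s)) ℚ,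
      ∀ᵐ A : Fin n → Fin s → ℂ, q ≠ 0 → aeval (ri n s A) q ≠ 0 := by
    intro q
    by_cases hq : q = 0
    · exact Filter.Eventually.of_forall fun A h => absurd hq h
    set P : MvPolynomial ((Fin n × Fin s) ⊕ (Fin n × Fin s)) ℂ := map (algebraMap ℚ ℂ) q with hP
    have hP0 : P ≠ 0 := by
      rw [hP]
      exact (map_ne_zero_iff _ (map_injective _ (algebraMap ℚ ℂ).injective)).2 hq
    have h1 : ∀ᵐ y : (Fin n × Fin s) ⊕ (Fin n × Fin s) → ℝ,
        eval (fun j => (y j : ℂ)) P ≠ 0 := by
      rw [ae_iff]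
      simpa using H450Sp.poly_null P hP0
    let L : (Fin n → Fin s → ℂ) ≃L[ℝ] ((Fin n × Fin s) ⊕ (Fin n × Fin s) → ℝ) :=
      (ri n s).toContinuousLinearEquiv
    have h2 : (Measure.map L (volume : Measure (Fin n → Fin s → ℂ))) ≪ volume := by
      have hh := haar n s
      have := L.isAddHaarMeasure_map (volume : Measure (Fin n → Fin s → ℂ))
      exact Measure.absolutelyContinuous_isAddHaarMeasure _ _
    have h3 := h2.ae_le h1
    have h4 := ae_of_ae_map L.continuous.measurable.aemeasurable h3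
    filter_upwards [h4] with A hA _ h0
    apply hA
    have h5 : (fun j => ((L A j : ℝ) : ℂ)) = algebraMap ℝ ℂ ∘ (ri n s A) := rfl
    have h6 : eval (fun j => ((L A j : ℝ) : ℂ)) P = aeval (algebraMap ℝ ℂ ∘ (ri n s A)) q := by
      rw [hP, eval_map, h5]
      rfl
    rw [h6, aeval_algebraMap_apply, h0, map_zero]
  have h := ae_all_iff.2 key
  filter_upwards [h] with A hA
  rw [algebraicIndependent_iff]
  intro q hq
  by_contra hne
  exact hA q hne hq

end Pool.Agent.K3h90.ET
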